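import Pool.Agent.Q289.LD.Stm

/-!
# Log-concave densities are continuous almost everywhere
-/

set_option autoImplicit false

namespace Pool.Agent.Q124.LD

open MeasureTheory Set Filter Topology
open scoped ENNReal InnerProductSpace
open Pool.Agent.W695.KH (Eu)
open Q289.LD

theorem pos_convex {κ : Type} [Fintype κ] {ρ : Eu κ → ℝ} (h : Den ρ) :
    Convex ℝ {x | 0 < ρ x} := by
  intro x hx y hy a b ha hb hab
  rw [mem_ofPred_eq] at hx hy ⊢
  rcases eq_or_lt_of_le ha with h0 | h0
  · have : b = 1 := by linarith
    rw [← h0, this, zero_smul, one_smul, zero_add]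
    exact hy
  rcases eq_or_lt_of_le hb with h1 | h1
  · have : a = 1 := by linarith
    rw [← h1, this, zero_smul, one_smul, add_zero]
    exact hx
  have e : a = 1 - b := by linarith
  have h2 := h.lc x y b h1 (by linarith)
  rw [e]
  exact lt_of_lt_of_le (mul_pos (Real.rpow_pos_of_pos hx _) (Real.rpow_pos_of_pos hy _)) h2

theorem log_concave {κ : Type} [Fintype κ] {ρ : Eu κ → ℝ} (h : Den ρ) :
    ConcaveOn ℝ {x | 0 < ρ x} fun x => Real.log (ρ x) := by
  refine ⟨pos_convex h, ?_⟩
  intro x hx y hy a b ha hb hab
  rw [mem_ofPred_eq] at hx hy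
  simp only [smul_eq_mul]
  rcases eq_or_lt_of_le ha with h0 | h0
  · have : b = 1 := by linarith
    rw [← h0, this, zero_smul, one_smul, zero_add, zero_mul, one_mul, zero_add]
  rcases eq_or_lt_of_le hb with h1 | h1
  · have : a = 1 := by linarith
    rw [← h1, this, zero_smul, one_smul, add_zero, zero_mul, one_mul, add_zero]
  have e : a = 1 - b := by linarith
  have h2 := h.lc x y b h1 (by linarith)
  rw [e]
  have h3 := Real.log_le_log (mul_pos (Real.rpow_pos_of_pos hx _) (Real.rpow_pos_of_pos hy _)) h2
  rwa [Real.log_mul (Real.rpow_pos_of_pos hx _).ne' (Real.rpow_pos_of_pos hy _).ne',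
    Real.log_rpow hx, Real.log_rpow hy] at h3

/-- log-concave densities are continuous almost everywhere -/
theorem cae : S_CAE := by
  intro κ _ ρ h
  have hcv := pos_convex h
  have hnull := hcv.addHaar_frontier volume
  have hae : ∀ᵐ x, x ∉ frontier {x | 0 < ρ x} := measure_eq_zero_iff_ae_notMem.1 hnull
  filter_upwards [hae] with x hx
  by_cases h1 : x ∈ interior {x | 0 < ρ x}
  · have hc : ConcaveOn ℝ (interior {x | 0 < ρ x}) fun x => Real.log (ρ x) :=
      (log_concave h).subset interior_subset hcv.interior
    have hcont := (hc.continuousOn isOpen_interior).continuousAt (isOpen_interior.mem_nhds h1)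
    have h2 : ContinuousAt (fun x => Real.exp (Real.log (ρ x))) x :=
      Real.continuous_exp.continuousAt.comp hcont
    refine h2.congr ?_
    filter_upwards [isOpen_interior.mem_nhds h1] with y hy
    exact Real.exp_log (interior_subset hy : y ∈ {x | 0 < ρ x})
  · have h2 : x ∉ closure {x | 0 < ρ x} := fun h3 => hx ⟨h3, h1⟩
    have h3 : ContinuousAt (fun _ : Eu κ => (0 : ℝ)) x := continuousAt_const
    refine h3.congr ?_
    filter_upwards [isClosed_closure.isOpen_compl.mem_nhds h2] with y hy
    have h4 : ¬ 0 < ρ y := fun h5 => hy (subset_closure h5)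
    exact le_antisymm (h.nonneg y) (not_lt.1 h4)

end Pool.Agent.Q124.LD
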