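import Pool.Agent.Q289.LD.Stm

/-!
# Log-concave densities decay exponentially
-/

set_option autoImplicit false

namespace Pool.Agent.Q124.LD

open MeasureTheory Set Filter Topology
open scoped ENNReal InnerProductSpace
open Pool.Agent.W695.KH (Eu)
open Q289.LD

theorem lev_convex {κ : Type} [Fintype κ] {w : Eu κ → ℝ} (hlc : ∀ x y : Eu κ, ∀ t : ℝ, 0 < t → t < 1 → w x ^ (1 - t) * w y ^ t ≤ w ((1 - t) • x + t • y)) {t : ℝ} (ht : 0 < t) :
    Convex ℝ {x | t ≤ w x} := by
  intro x hx y hy a b ha hb hab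
  rw [mem_ofPred_eq] at hx hy ⊢
  rcases eq_or_lt_of_le ha with h0 | h0
  · have : b = 1 := by linarith
    rw [← h0, this, zero_smul, one_smul, zero_add]
    exact hy
  rcases eq_or_lt_of_le hb with h1 | h1
  · have : a = 1 := by linarith
    rw [← h1, this, zero_smul, one_smul, add_zero]
    exact hx
  have e : a = 1 - b := by linarith
  have h2 := hlc x y b h1 (by linarith)
  rw [e]
  refine le_trans ?_ h2
  calc t = t ^ (1 - b) * t ^ b := by
        rw [← Real.rpow_add ht, sub_add_cancel, Real.rpow_one]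
    _ ≤ w x ^ (1 - b) * w y ^ b :=
        mul_le_mul (Real.rpow_le_rpow ht.le hx (by linarith)) (Real.rpow_le_rpow ht.le hy h1.le)
          (Real.rpow_nonneg ht.le _) (Real.rpow_nonneg (ht.le.trans hx) _)

/-- a convex set of positive and finite volume in a ball-containing position is bounded -/
theorem conv_bdd {κ : Type} [Fintype κ] {L : Set (Eu κ)} (hL : Convex ℝ L) (hfin : volume L ≠ ⊤)
    {x0 : Eu κ} {δ : ℝ} (hδ : 0 < δ) (hb : Metric.ball x0 δ ⊆ L) :
    ∃ R : ℝ, 0 < R ∧ ∀ y ∈ L, ‖y - x0‖ ≤ R := by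
  obtain ⟨b, hb0⟩ : ∃ b : ℝ≥0∞, b = volume (Metric.ball (0 : Eu κ) (δ / 2)) := ⟨_, rfl⟩
  have hbpos : 0 < b := by
    rw [hb0]
    exact Metric.measure_ball_pos _ _ (by positivity)
  obtain ⟨N, hN⟩ : ∃ N : ℕ, volume L < N * b := by
    obtain ⟨N, hN⟩ := ENNReal.exists_nat_mul_gt hbpos.ne' hfin
    exact ⟨N, hN⟩
  refine ⟨2 * (N + 1) * δ, by positivity, fun y hy => ?_⟩
  by_contra hlt
  rw [not_le] at hlt
  obtain ⟨D, hD⟩ : ∃ D : ℝ, D = ‖y - x0‖ := ⟨_, rfl⟩
  rw [← hD] at hlt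
  have hD0 : 0 < D := lt_trans (by positivity) hlt
  -- the balls
  obtain ⟨p, hp⟩ : ∃ p : ℕ → Eu κ, p = fun j : ℕ => x0 + ((j : ℝ) * δ / D) • (y - x0) := ⟨_, rfl⟩
  have hdist : ∀ i j : ℕ, dist (p i) (p j) = |(i : ℝ) - j| * δ := by
    intro i j
    rw [hp, dist_eq_norm]
    have e : x0 + ((i : ℝ) * δ / D) • (y - x0) - (x0 + ((j : ℝ) * δ / D) • (y - x0)) =
        ((((i : ℝ) - j) * δ) / D) • (y - x0) := by
      rw [add_sub_add_left_eq_sub, ← sub_smul]
      congr 1
      ring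
    simp only
    rw [e, norm_smul, ← hD, Real.norm_eq_abs, abs_div, abs_of_pos hD0, div_mul_cancel₀ _ hD0.ne',
      abs_mul, abs_of_pos hδ]
  have hsub : ∀ j < N, Metric.ball (p j) (δ / 2) ⊆ L := by
    intro j hj z hz
    obtain ⟨s, hs⟩ : ∃ s : ℝ, s = (j : ℝ) * δ / D := ⟨_, rfl⟩
    have hjN : (j : ℝ) ≤ N := by exact_mod_cast hj.le
    have hs0 : 0 ≤ s := by rw [hs]; positivity
    have hs1 : s < 1 / 2 := by
      rw [hs, div_lt_iff₀ hD0]
      nlinarith
    have h1s : 0 < 1 - s := by linarith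
    have hz2 : z = (1 - s) • (x0 + (1 - s)⁻¹ • (z - p j)) + s • y := by
      rw [smul_add, smul_smul, mul_inv_cancel₀ h1s.ne', one_smul, hp]
      simp only
      rw [← hs]
      module
    rw [hz2]
    refine hL (hb ?_) hy h1s.le hs0 (by ring)
    rw [Metric.mem_ball, dist_eq_norm, add_sub_cancel_left, norm_smul, norm_inv,
      Real.norm_eq_abs, abs_of_pos h1s]
    rw [Metric.mem_ball, dist_eq_norm] at hz
    rw [inv_mul_lt_iff₀ h1s]
    nlinarith
  have hdisj : (↑(Finset.range N) : Set ℕ).PairwiseDisjoint fun j => Metric.ball (p j) (δ / 2) := by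
    intro i hi j hj hij
    refine Metric.ball_disjoint_ball ?_
    rw [hdist]
    have h1 : (1 : ℝ) ≤ |(i : ℝ) - j| := by
      have : (i : ℤ) - j ≠ 0 := by omega
      have h2 := Int.one_le_abs this
      exact_mod_cast h2
    nlinarith
  have hvol : volume (⋃ j ∈ Finset.range N, Metric.ball (p j) (δ / 2)) = N * b := by
    rw [measure_biUnion_finset hdisj fun j _ => measurableSet_ball]
    have : ∀ j, volume (Metric.ball (p j) (δ / 2)) = b := fun j => by
      rw [hb0, Measure.addHaar_ball_center]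
    simp [this]
  have hle : N * b ≤ volume L := by
    rw [← hvol]
    refine measure_mono (iUnion₂_subset fun j hj => hsub j (Finset.mem_range.1 hj))
  exact absurd hle (not_le.2 hN)

/-- log-concave densities decay exponentially -/
theorem exp : S_EXP := by
  intro κ _ w hw
  have h0 := hw.nonneg
  have hlc := hw.lc
  have hp : 0 < ∫ x, w x := by rw [hw.mass]; exact one_pos
  have hi : Integrable w := by
    by_contra h
    rw [integral_undef h] at hp
    exact lt_irrefl _ hp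
  -- a level set with interior points
  obtain ⟨t, ht, x0, δ, hδ, hball⟩ : ∃ (t : ℝ), 0 < t ∧ ∃ (x0 : Eu κ) (δ : ℝ), 0 < δ ∧
      Metric.ball x0 δ ⊆ {x | t ≤ w x} := by
    have h1 : 0 < volume {x | 0 < w x} := by
      by_contra h
      have h2 : volume {x | 0 < w x} = 0 := le_antisymm (not_lt.1 h) zero_le
      have h3 : w =ᵐ[volume] 0 := by
        rw [Filter.EventuallyEq, ae_iff]
        refine measure_mono_null (fun x hx => ?_) h2
        rw [mem_ofPred_eq] at hx ⊢
        exact lt_of_le_of_ne (h0 x) (Ne.symm hx)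
      rw [integral_congr_ae h3] at hp
      simp at hp
    obtain ⟨k, hk⟩ : ∃ k : ℕ, 0 < volume {x | 1 / ((k : ℝ) + 1) ≤ w x} := by
      by_contra h
      push Not at h
      have h2 : {x | 0 < w x} ⊆ ⋃ k : ℕ, {x | 1 / ((k : ℝ) + 1) ≤ w x} := by
        intro x hx
        obtain ⟨k, hk⟩ := exists_nat_one_div_lt (show (0 : ℝ) < w x from hx)
        exact mem_iUnion.2 ⟨k, hk.le⟩
      have h3 : volume (⋃ k : ℕ, {x | 1 / ((k : ℝ) + 1) ≤ w x}) = 0 :=
        measure_iUnion_null fun k => le_antisymm (h k) zero_le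
      exact absurd (measure_mono_null h2 h3) h1.ne'
    have ht : (0 : ℝ) < 1 / ((k : ℝ) + 1) := by positivity
    have hcv := lev_convex hlc ht
    have hint : (interior {x | 1 / ((k : ℝ) + 1) ≤ w x}).Nonempty := by
      by_contra h
      rw [not_nonempty_iff_eq_empty] at h
      have h2 := hcv.addHaar_frontier volume
      have h3 : volume {x | 1 / ((k : ℝ) + 1) ≤ w x} ≤ 0 := by
        rw [← h2]
        refine measure_mono fun x hx => ?_
        rw [frontier, h, sdiff_empty]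
        exact subset_closure hx
      exact absurd h3 (not_le.2 hk)
    obtain ⟨x0, hx0⟩ := hint
    obtain ⟨δ, hδ, hb⟩ := Metric.isOpen_iff.1 isOpen_interior x0 hx0
    exact ⟨_, ht, x0, δ, hδ, hb.trans interior_subset⟩
  -- the larger level set is bounded
  obtain ⟨t1, ht1⟩ : ∃ t1 : ℝ, t1 = t * Real.exp (-1) := ⟨_, rfl⟩
  have ht10 : 0 < t1 := by rw [ht1]; positivity
  have ht1t : t1 ≤ t := by
    rw [ht1]
    have : Real.exp (-1) ≤ 1 := Real.exp_le_one_iff.2 (by norm_num)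
    nlinarith
  have hfin : volume {x | t1 ≤ w x} ≠ ⊤ := by
    have h1 := hi.measure_norm_ge_lt_top ht10
    refine (lt_of_le_of_lt (measure_mono fun x hx => ?_) h1).ne
    rw [mem_ofPred_eq] at hx ⊢
    rw [Real.norm_eq_abs, abs_of_nonneg (h0 x)]
    exact hx
  obtain ⟨R, hR, hRb⟩ := conv_bdd (lev_convex hlc ht10) hfin hδ
    (hball.trans fun x hx => ht1t.trans hx)
  have hx0 : t ≤ w x0 := hball (Metric.mem_ball_self hδ)
  -- decay
  have hdec : ∀ x, 2 * R < ‖x - x0‖ → w x ≤ t * Real.exp (-(‖x - x0‖ / (2 * R))) := by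
    intro x hx
    obtain ⟨D, hD⟩ : ∃ D : ℝ, D = ‖x - x0‖ := ⟨_, rfl⟩
    rw [← hD] at hx ⊢
    have hD0 : 0 < D := lt_trans (by positivity) hx
    obtain ⟨s, hs⟩ : ∃ s : ℝ, s = 2 * R / D := ⟨_, rfl⟩
    have hs0 : 0 < s := by rw [hs]; positivity
    have hs1 : s < 1 := by rw [hs, div_lt_one hD0]; exact hx
    have h1 := hlc x0 x s hs0 hs1
    have h2 : w ((1 - s) • x0 + s • x) < t1 := by
      by_contra h
      rw [not_lt] at h
      have h3 := hRb _ h
      have e : (1 - s) • x0 + s • x - x0 = s • (x - x0) := by module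
      rw [e, norm_smul, ← hD, Real.norm_eq_abs, abs_of_pos hs0, hs, div_mul_cancel₀ _ hD0.ne'] at h3
      linarith
    have h3 : t ^ (1 - s) * w x ^ s ≤ t * Real.exp (-1) := by
      rw [← ht1]
      refine le_trans (mul_le_mul_of_nonneg_right (Real.rpow_le_rpow ht.le hx0 (by linarith))
        (Real.rpow_nonneg (h0 x) _)) (h1.trans h2.le)
    have h4 : w x ^ s ≤ t ^ s * Real.exp (-1) := by
      have h5 : t = t ^ (1 - s) * t ^ s := by
        rw [← Real.rpow_add ht, sub_add_cancel, Real.rpow_one]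
      have h6 : 0 < t ^ (1 - s) := Real.rpow_pos_of_pos ht _
      have h7 : t ^ (1 - s) * w x ^ s ≤ t ^ (1 - s) * (t ^ s * Real.exp (-1)) := by
        rw [← mul_assoc, ← h5]
        exact h3
      exact le_of_mul_le_mul_left h7 h6
    have h5 : (w x ^ s) ^ s⁻¹ ≤ (t ^ s * Real.exp (-1)) ^ s⁻¹ :=
      Real.rpow_le_rpow (Real.rpow_nonneg (h0 x) _) h4 (by positivity)
    rw [← Real.rpow_mul (h0 x), mul_inv_cancel₀ hs0.ne', Real.rpow_one,
      Real.mul_rpow (Real.rpow_nonneg ht.le _) (Real.exp_pos _).le, ← Real.rpow_mul ht.le,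
      mul_inv_cancel₀ hs0.ne', Real.rpow_one, ← Real.exp_mul] at h5
    have e2 : -1 * s⁻¹ = -(D / (2 * R)) := by
      rw [hs, inv_div]
      ring
    rwa [e2] at h5
  -- boundedness
  obtain ⟨b, hb⟩ : ∃ b : ℝ, b = volume.real (Metric.ball (0 : Eu κ) (δ / 2)) := ⟨_, rfl⟩
  have hbpos : 0 < b := by
    rw [hb, Measure.real]
    exact ENNReal.toReal_pos (Metric.measure_ball_pos _ _ (by positivity)).ne'
      measure_ball_lt_top.ne
  have hbd : ∀ x, w x ≤ 1 / (t * b ^ 2) := by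
    intro x
    have hst : 0 ≤ Real.sqrt t * Real.sqrt (w x) := by positivity
    have h1 : ∀ y ∈ Metric.ball ((1 / 2 : ℝ) • (x0 + x)) (δ / 2),
        Real.sqrt t * Real.sqrt (w x) ≤ w y := by
      intro y hy
      have h2 : (2 : ℝ) • y - x ∈ Metric.ball x0 δ := by
        rw [Metric.mem_ball, dist_eq_norm] at hy ⊢
        have e : (2 : ℝ) • y - x - x0 = (2 : ℝ) • (y - (1 / 2 : ℝ) • (x0 + x)) := by module
        rw [e, norm_smul, Real.norm_eq_abs, abs_of_pos (by norm_num : (0 : ℝ) < 2)]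
        linarith
      have h3 : t ≤ w ((2 : ℝ) • y - x) := hball h2
      have h := hlc ((2 : ℝ) • y - x) x (1 / 2) (by norm_num) (by norm_num)
      have e : (1 - 1 / 2 : ℝ) • ((2 : ℝ) • y - x) + (1 / 2 : ℝ) • x = y := by module
      rw [e] at h
      refine le_trans ?_ h
      rw [Real.sqrt_eq_rpow, Real.sqrt_eq_rpow]
      have e2 : (1 - 1 / 2 : ℝ) = 1 / 2 := by norm_num
      rw [e2]
      exact mul_le_mul_of_nonneg_right (Real.rpow_le_rpow ht.le h3 (by norm_num))
        (Real.rpow_nonneg (h0 x) _)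
    have h2 : Real.sqrt t * Real.sqrt (w x) * b ≤ 1 := by
      have h3 : ∫ y in Metric.ball ((1 / 2 : ℝ) • (x0 + x)) (δ / 2),
          Real.sqrt t * Real.sqrt (w x) ≤
          ∫ y in Metric.ball ((1 / 2 : ℝ) • (x0 + x)) (δ / 2), w y :=
        setIntegral_mono_on (integrableOn_const measure_ball_lt_top.ne) hi.integrableOn
          measurableSet_ball h1
      have h4 : ∫ y in Metric.ball ((1 / 2 : ℝ) • (x0 + x)) (δ / 2), w y ≤ ∫ y, w y :=
        setIntegral_le_integral hi (Eventually.of_forall h0)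
      rw [hw.mass] at h4
      rw [setIntegral_const, smul_eq_mul, Measure.real, Measure.addHaar_ball_center,
        ← Measure.real, ← hb] at h3
      linarith [mul_comm b (Real.sqrt t * Real.sqrt (w x))]
    have h3 : (Real.sqrt t * Real.sqrt (w x) * b) ^ 2 ≤ 1 :=
      pow_le_one₀ (by positivity) h2
    rw [mul_pow, mul_pow, Real.sq_sqrt ht.le, Real.sq_sqrt (h0 x)] at h3
    rw [le_div_iff₀ (by positivity)]
    linarith [show w x * (t * b ^ 2) = t * w x * b ^ 2 by ring]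
  have hRR : 0 < 2 * R := by positivity
  refine ⟨(1 / (t * b ^ 2) + t) * Real.exp (1 + ‖x0‖ / (2 * R)), 1 / (2 * R), by positivity,
    by positivity, fun x => ?_⟩
  have hM : 0 < 1 / (t * b ^ 2) := by positivity
  rcases le_or_gt ‖x - x0‖ (2 * R) with hx | hx
  · have h1 : ‖x‖ ≤ ‖x0‖ + 2 * R := by
      have := norm_le_norm_add_norm_sub' x x0
      linarith
    have h2 : 0 ≤ 1 + ‖x0‖ / (2 * R) + -(1 / (2 * R) * ‖x‖) := by
      have h3 : 1 / (2 * R) * ‖x‖ ≤ 1 / (2 * R) * (‖x0‖ + 2 * R) :=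
        mul_le_mul_of_nonneg_left h1 (by positivity)
      have h4 : 1 / (2 * R) * (‖x0‖ + 2 * R) = 1 + ‖x0‖ / (2 * R) := by
        field_simp
        ring
      linarith
    have h3 : 1 ≤ Real.exp (1 + ‖x0‖ / (2 * R) + -(1 / (2 * R) * ‖x‖)) := Real.one_le_exp h2
    rw [mul_assoc, ← Real.exp_add]
    have h4 := hbd x
    nlinarith
  · have h1 : ‖x‖ ≤ ‖x0‖ + ‖x - x0‖ := norm_le_norm_add_norm_sub' x x0
    have h2 : -(‖x - x0‖ / (2 * R)) ≤ 1 + ‖x0‖ / (2 * R) + -(1 / (2 * R) * ‖x‖) := by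
      have h3 : ‖x‖ / (2 * R) ≤ (‖x0‖ + ‖x - x0‖) / (2 * R) :=
        div_le_div_of_nonneg_right h1 hRR.le
      rw [add_div] at h3
      have h4 : 1 / (2 * R) * ‖x‖ = ‖x‖ / (2 * R) := by ring
      linarith
    have h3 := Real.exp_le_exp.2 h2
    have h4 := hdec x hx
    rw [mul_assoc, ← Real.exp_add]
    have h5 := mul_le_mul_of_nonneg_left h3 ht.le
    have h6 := Real.exp_pos (1 + ‖x0‖ / (2 * R) + -(1 / (2 * R) * ‖x‖))
    nlinarith

end Pool.Agent.Q124.LD
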